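import Pool.Agent.Helper19.PM.Goals
import Pool.Agent.Helper86.SGC.SCAL

/-!
# Project P1M (MP_a41896_nt), packet DENW: denominators and place functions of a number
-/

set_option autoImplicit false

open MvPolynomial

namespace Pool.Agent.Helper15.PM

open WeierstrassCurve Height
open Pool.Agent.Helper29.BL Pool.Agent.Helper92.Ru Pool.Agent.Helper42.SG
open Pool.Agent.Helper68.VN hiding xs Good nz

theorem t_DENW : Pool.Agent.Helper19.PM.DENW := by
  intro K _ _
  refine ⟨1, zero_le_one, fun y => ?_⟩
  have h1 : (1 : ℝ) ≤ mulHeight₁ y := one_le_mulHeight₁ y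
  have hexp : Real.exp (1 * logHeight₁ y) = mulHeight₁ y := by
    rw [one_mul, logHeight₁_eq_log_mulHeight₁, Real.exp_log (lt_of_lt_of_le one_pos h1)]
  rw [hexp]
  constructor
  · obtain ⟨n, hn0, hnle, hint⟩ := NumberField.exists_nat_le_mulHeight₁ y
    exact ⟨n, Nat.pos_of_ne_zero hn0, hnle, hint⟩
  · intro φ
    have h2 : (NumberField.place φ) y ≤ mulHeight₁ y := by
      have h3 : ‖φ y‖ ≤ NumberField.house y := by
        have := norm_le_pi_norm (fun ψ : K →+* ℂ => ψ y) φ
        exact this
      exact h3.trans (Pool.Agent.Helper86.SGC.house_le_mulHeight₁ y)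
    exact max_le h1 h2

end Pool.Agent.Helper15.PM
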